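import Mathlib

set_option autoImplicit false

namespace Pool.Agent.Results.MP_a8a70f_gt.KTwo

open Set Filter Topology Cardinal

/-- The remainder of the space of ultrafilters on the natural numbers. -/
abbrev Y : Type := {u : Ultrafilter ℕ // u ∉ range (pure : ℕ → Ultrafilter ℕ)}

/-- The relation collapsing `A` to a point. -/
def rel (A : Set Y) : Setoid Y where
  r x y := x = y ∨ (x ∈ A ∧ y ∈ A)
  iseqv := ⟨fun _ => Or.inl rfl, fun h => h.imp Eq.symm And.symm, by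
    rintro x y z (rfl | h) (rfl | h')
    exacts [Or.inl rfl, Or.inr h', Or.inr h, Or.inr ⟨h.1, h'.2⟩]⟩

/-- The set `Y / A`. -/
def FMQ (A : Set Y) : Type := Quotient (rel A)

/-- The projection. -/
def q (A : Set Y) (x : Y) : FMQ A := Quotient.mk (rel A) x

/-- The density-modified quotient topology. -/
instance (A : Set Y) : TopologicalSpace (FMQ A) where
  IsOpen U := IsOpen (q A ⁻¹' U) ∧ ∀ a ∈ A, q A a ∈ U → Dense (q A ⁻¹' U)
  isOpen_univ := ⟨isOpen_univ, fun _ _ _ => dense_univ⟩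
  isOpen_inter := fun _ _ hs ht => ⟨hs.1.inter ht.1, fun a ha h =>
    (hs.2 a ha h.1).inter_of_isOpen_left (ht.2 a ha h.2) hs.1⟩
  isOpen_sUnion := fun S hS => ⟨by
    rw [preimage_sUnion]; exact isOpen_biUnion fun U hU => (hS U hU).1,
    fun a ha ⟨U, hU, h⟩ => ((hS U hU).2 a ha h).mono (preimage_mono (subset_sUnion_of_mem hU))⟩

/-- `k_2`-Hausdorff spaces. -/
def K2 (X : Type) [TopologicalSpace X] : Prop :=
  ∀ (K : Type*) [TopologicalSpace K] [CompactSpace K] [T2Space K] (f : K → X), Continuous f →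
    IsClosed {p : K × K | f p.1 = f p.2}

def hat (S : Set ℕ) : Set Y := {u | S ∈ u.1}

lemma hat_clopen (S : Set ℕ) : IsClopen (hat S) :=
  ⟨(ultrafilter_isClosed_basic S).preimage continuous_subtype_val,
    (ultrafilter_isOpen_basic S).preimage continuous_subtype_val⟩

lemma basis {O : Set Y} (hO : IsOpen O) {u : Y} (hu : u ∈ O) : ∃ S, u ∈ hat S ∧ hat S ⊆ O := by
  obtain ⟨V, hV, rfl⟩ := isOpen_induced_iff.1 hO
  obtain ⟨_, ⟨S, rfl⟩, a, b⟩ := ultrafilterBasis_is_basis.exists_subset_of_mem_open hu hV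
  exact ⟨S, a, fun v hv => b hv⟩

lemma inf {S : Set ℕ} {u : Y} (hu : u ∈ hat S) : S.Infinite := fun h =>
  (u.1.eq_pure_of_finite_mem h hu).elim fun a ha => u.2 ⟨a, ha.2.symm⟩

lemma ad {O : Set Y} (hO : IsOpen O) (h : O.Nonempty) : ∃ B : (ℕ → Bool) → Set ℕ,
    (∀ r, (hat (B r)).Nonempty ∧ hat (B r) ⊆ O) ∧ Pairwise fun r s => Disjoint (hat (B r)) (hat (B s)) := by
  obtain ⟨u, hu⟩ := h
  obtain ⟨S, h1, h2⟩ := basis hO hu
  let e : List Bool → ℕ := fun l => ((inf h1).natEmbedding _ (Encodable.encode l)).1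
  have he : Function.Injective e := Subtype.val_injective.comp
    (((inf h1).natEmbedding _).injective.comp Encodable.encode_injective)
  let c : (ℕ → Bool) → ℕ → ℕ := fun r n => e (List.ofFn fun i : Fin n => r i)
  have hc : ∀ r s n m, c r n = c s m → n = m ∧ ∀ i < n, r i = s i := fun r s n m h => by
    have h' := he h
    obtain rfl : n = m := by simpa using congrArg List.length h'
    exact ⟨rfl, fun i hi => congrFun (List.ofFn_injective h') ⟨i, hi⟩⟩
  refine ⟨fun r => range (c r), fun r => ⟨⟨⟨(hyperfilter ℕ).map (c r), ?_⟩, range_mem_map⟩,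
    fun v hv => h2 (mem_of_superset hv ?_)⟩, fun r s hrs => disjoint_left.2 fun v a b => ?_⟩
  · rintro ⟨n, hn⟩
    have : c r ⁻¹' {n} ∈ hyperfilter ℕ := show {n} ∈ (hyperfilter ℕ).map (c r) from hn ▸ rfl
    exact ((finite_singleton n).preimage fun a _ b _ h => (hc r r a b h).1).notMem_hyperfilter this
  · rintro _ ⟨n, rfl⟩
    exact ((inf h1).natEmbedding _ _).2
  · obtain ⟨i, hi⟩ := Function.ne_iff.1 hrs
    refine inf (S := range (c r) ∩ range (c s)) (inter_mem a b) (((finite_Iic i).image (c r)).subset ?_)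
    rintro _ ⟨⟨n, rfl⟩, m, hm⟩
    exact ⟨n, not_lt.1 fun h => hi ((hc r s n m hm.symm).2 i h), rfl⟩

lemma small {S : Set Y} {O : Set Y} (hO : IsOpen O) (hn : O.Nonempty) (h : O ⊆ closure S) :
    𝔠 ≤ #S := by
  obtain ⟨B, h1, h2⟩ := ad hO hn
  choose x x1 x2 using fun r => (h1 r).1.elim fun u hu =>
    mem_closure_iff.1 (h ((h1 r).2 hu)) _ (hat_clopen _).isOpen hu
  have : Function.Injective fun r => (⟨x r, x2 r⟩ : S) := fun r s e => by_contra fun hh =>
    disjoint_left.1 (h2 hh) (x1 r) (by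
      have e' : x r = x s := congrArg Subtype.val e
      rw [e']; exact x1 s)
  simpa using mk_le_of_injective this

lemma main {K : Type*} [TopologicalSpace K] [CompactSpace K] [T2Space K] {g : K → Y} {W : Set Y}
    (hW : IsClopen W) (ho : ∀ U ⊆ W, IsOpen U → IsOpen (g ⁻¹' U))
    (hc : ∀ N ⊆ W, IsClosed N → interior N = ∅ → IsClosed (g ⁻¹' N)) : IsClosed (g ⁻¹' W) := by
  have nb : ∀ N ⊆ W, IsClosed N → interior N = ∅ → ∃ O, IsOpen O ∧ g ⁻¹' N ⊆ O ∧
      ∀ B ⊆ W, IsClosed B → g ⁻¹' B ⊆ O → IsClosed (g ⁻¹' B) := fun N a b c => by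
    obtain ⟨O, h1, h2, h3⟩ := normal_exists_closure_subset (hc N a b c) (ho W Subset.rfl hW.isOpen)
      (preimage_mono a)
    refine ⟨O, h1, h2, fun B d e f => isClosed_of_closure_subset fun x hx => by_contra fun hh => ?_⟩
    obtain ⟨y, y1, y2⟩ := mem_closure_iff.1 hx _ (ho (W \ B) sdiff_subset (hW.isOpen.sdiff e))
      ⟨h3 (closure_mono f hx), hh⟩
    exact y1.2 y2
  let I : Set (Set ℕ) := {S | hat S ⊆ W ∧ IsClosed (g ⁻¹' hat S)}
  let F : Set Y := W \ ⋃ S ∈ I, hat S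
  have cF : IsClosed F := hW.isClosed.sdiff (isOpen_biUnion fun S _ => (hat_clopen S).isOpen)
  have iF : interior F = ∅ := by
    by_contra hh
    obtain ⟨B', h1, h2⟩ := ad isOpen_interior (nonempty_iff_ne_empty.2 hh)
    let B : ℕ → Set ℕ := fun n => B' fun i => decide (i = n)
    have hB : ∀ n m y, y ∈ hat (B n) → y ∈ hat (B m) → n = m := fun n m y a b => by_contra fun h =>
      disjoint_left.1 (h2 (i := fun i => decide (i = n)) (j := fun i => decide (i = m))
        fun e => h (by simpa using congrFun e n)) a b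
    have bW : ∀ n, hat (B n) ⊆ W := fun n => ((h1 _).2.trans interior_subset).trans sdiff_subset
    have uW : closure (⋃ n, hat (B n)) ⊆ W := closure_minimal (iUnion_subset bW) hW.isClosed
    have uo : IsOpen (⋃ n, hat (B n)) := isOpen_iUnion fun n => (hat_clopen _).isOpen
    obtain ⟨O, o1, o2, o3⟩ := nb (frontier (⋃ n, hat (B n))) (frontier_subset_closure.trans uW)
      isClosed_frontier (by rw [← frontier_compl]; exact interior_frontier uo.isClosed_compl)
    choose x x1 x2 using fun n => not_subset.1 fun h => (h1 _).1.elim fun u hu =>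
      (interior_subset ((h1 _).2 hu)).2 (mem_biUnion (show B n ∈ I from
        ⟨bW n, o3 _ (bW n) (hat_clopen _).isClosed h⟩) hu)
    have s1 : closure (range fun n => g (x n)) ⊆ closure (⋃ n, hat (B n)) :=
      closure_mono (by rintro _ ⟨n, rfl⟩; exact mem_iUnion.2 ⟨n, x1 n⟩)
    have hN := hc _ (s1.trans uW) isClosed_closure (by_contra fun h => absurd (small isOpen_interior
      (nonempty_iff_ne_empty.2 h) interior_subset) (not_le.2
      ((countable_range _).le_aleph0.trans_lt aleph0_lt_continuum)))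
    obtain ⟨p, ⟨p1, p2⟩, hp⟩ := (hN.sdiff o1).isCompact.exists_mapClusterPt (f := atTop) (u := x)
      (le_principal_iff.2 (mem_map.2 (univ_mem' fun n => ⟨subset_closure ⟨n, rfl⟩, x2 n⟩)))
    have : g p ∈ ⋃ n, hat (B n) := by_contra fun h => p2 (o2 ⟨s1 p1, fun h' => h (interior_subset h')⟩)
    obtain ⟨m, hm⟩ := mem_iUnion.1 this
    obtain ⟨n, a, b⟩ := ((mapClusterPt_iff_frequently.1 hp _
      ((ho _ (bW m) (hat_clopen _).isOpen).mem_nhds hm)).and_eventually (eventually_gt_atTop m)).exists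
    exact b.ne' (hB n m _ (x1 n) a)
  obtain ⟨O, o1, o2, o3⟩ := nb F sdiff_subset cF iF
  by_contra hcl
  have fin : ∀ C ⊆ I, C.Finite → ¬ (g ⁻¹' W \ O ⊆ ⋃ S ∈ C, g ⁻¹' hat S) := fun C a b h => by
    have h1 : IsClosed (⋃ S ∈ C, g ⁻¹' hat S) := b.isClosed_biUnion fun S hS => (a hS).2
    have h2 : IsClopen (⋃ S ∈ C, hat S) := b.isClopen_biUnion fun S _ => hat_clopen S
    have h3 := o3 (W \ ⋃ S ∈ C, hat S) sdiff_subset (hW.isClosed.sdiff h2.isOpen) fun x hx =>
      by_contra fun hh => hx.2 (by simpa using h ⟨hx.1, hh⟩)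
    convert (hcl ∘ fun h => h) (_ : IsClosed (g ⁻¹' W))
    convert h1.union h3
    ext x
    simp only [mem_preimage, mem_union, mem_iUnion, Set.mem_sdiff, exists_prop]
    refine ⟨fun h => by tauto, ?_⟩
    rintro (⟨S, a1, a2⟩ | h)
    exacts [(a a1).1 a2, h.1]
  obtain ⟨C, ⟨c1, c2⟩, cm⟩ := exists_minimalFor_of_wellFoundedLT
    (fun C : Set (Set ℕ) => C ⊆ I ∧ g ⁻¹' W \ O ⊆ ⋃ S ∈ C, g ⁻¹' hat S) (fun C => #C)
    ⟨I, Subset.rfl, fun x hx => by_contra fun h => hx.2 (o2 ⟨hx.1, by simpa using h⟩)⟩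
  have ci : ℵ₀ ≤ #C := infinite_iff.1 (infinite_coe_iff.2 fun h => fin C c1 h c2)
  have cc : #C ≤ 𝔠 := (mk_set_le C).trans (by simp)
  obtain ⟨e⟩ : Nonempty ((#C).ord.ToType ≃ C) := Cardinal.eq.1 (by simp)
  haveI := noMaxOrder ci
  have key : ∀ a : (#C).ord.ToType, ∃ x ∈ g ⁻¹' W \ O, ∀ b < a, g x ∉ hat (e b) := fun a => by
    have lt : #((fun b => (e b).1) '' Iio a) < #C := mk_image_le.trans_lt (mk_Iio_toType_ord_lt a)
    obtain ⟨x, x1, x2⟩ := not_subset.1 fun h : g ⁻¹' W \ O ⊆ ⋃ S ∈ (fun b => (e b).1) '' Iio a,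
      g ⁻¹' hat S => not_le.2 lt (cm ⟨by rintro _ ⟨b, -, rfl⟩; exact c1 (e b).2, h⟩ lt.le)
    exact ⟨x, x1, fun b hb h => x2 (mem_biUnion (mem_image_of_mem _ hb) h)⟩
  choose x x1 x2 using key
  have cov : ∀ y ∈ g ⁻¹' W \ O, ∃ b, g y ∈ hat (e b) := fun y hy => by
    obtain ⟨S, a, b⟩ := mem_iUnion₂.1 (c2 hy)
    exact ⟨e.symm ⟨S, a⟩, by simpa using b⟩
  have s1 : closure (range fun a => g (x a)) ⊆ W :=
    closure_minimal (by rintro _ ⟨a, rfl⟩; exact (x1 a).1) hW.isClosed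
  have hN := hc _ s1 isClosed_closure (by_contra fun h => by
    obtain ⟨u, hu⟩ := nonempty_iff_ne_empty.2 h
    obtain ⟨_, u1, a, rfl⟩ := mem_closure_iff.1 (interior_subset hu) _ isOpen_interior hu
    obtain ⟨b, hb⟩ := cov _ (x1 a)
    obtain ⟨b', hb'⟩ := exists_gt b
    have := small (S := (fun a => g (x a)) '' Iio b') (isOpen_interior.inter (hat_clopen _).isOpen)
      ⟨_, u1, hb⟩ fun v hv => closure_mono (by
        rintro _ ⟨h, c, rfl⟩
        exact ⟨c, (not_lt.1 fun h' => x2 c b h' h).trans_lt hb', rfl⟩)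
        ((hat_clopen _).isOpen.inter_closure ⟨hv.2, interior_subset hv.1⟩)
    exact absurd this (not_le.2 ((mk_image_le.trans_lt (mk_Iio_toType_ord_lt b')).trans_le cc)))
  obtain ⟨T, hT⟩ := (hN.sdiff o1).isCompact.elim_finite_subcover (fun b => g ⁻¹' hat (e b))
    (fun b => ho _ (c1 (e b).2).1 (hat_clopen _).isOpen)
    fun y hy => mem_iUnion.2 (cov y ⟨s1 hy.1, hy.2⟩)
  haveI : Nonempty (#C).ord.ToType := ⟨e.symm (Classical.choice (mk_ne_zero_iff.1
    (aleph0_pos.trans_le ci).ne'))⟩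
  obtain ⟨m, hm⟩ := T.bddAbove
  obtain ⟨m', hm'⟩ := exists_gt m
  obtain ⟨b, a1, a2⟩ := mem_iUnion₂.1 (hT ⟨subset_closure ⟨m', rfl⟩, (x1 m').2⟩)
  exact x2 m' b ((hm a1).trans_lt hm') a2

theorem result (A : Set Y) (hA : A.Finite) : K2 (FMQ A) := by
  intro K _ _ _ f hf
  let g : K → Y := fun k => (f k).out
  have hg : ∀ k, q A (g k) = f k := fun k => Quotient.out_eq _
  have pre : ∀ S, Disjoint S A → q A ⁻¹' (q A '' S) = S := fun S h =>
    Subset.antisymm (by
      rintro x ⟨y, hy, e⟩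
      rcases Quotient.exact e with rfl | e
      exacts [hy, absurd e.1 (disjoint_left.1 h hy)]) (subset_preimage_image _ _)
  have gf : ∀ S, Disjoint S A → g ⁻¹' S = f ⁻¹' (q A '' S) := fun S h => by
    ext k
    rw [mem_preimage, mem_preimage, ← hg, ← mem_preimage (f := q A), pre S h]
  have sep : ∀ a b, g a ∉ A → f a ≠ f b → ∃ C, IsClopen C ∧ a ∈ C ∧ b ∉ C ∧
      ∀ x ∈ C, ∀ y, f x = f y → y ∈ C := fun a b h1 h2 => by
    obtain ⟨S, s1, s2⟩ := basis (hA.insert (g b)).isClosed.isOpen_compl (u := g a) (by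
      rintro (h | h)
      exacts [h2 (by rw [← hg, h, hg]), h1 h])
    have hd : ∀ U ⊆ hat S, Disjoint U A := fun U hU => disjoint_left.2 fun y hy h => s2 (hU hy) (Or.inr h)
    have ho : ∀ U ⊆ hat S, IsOpen U → IsOpen (g ⁻¹' U) := fun U h hU => by
      rw [gf U (hd U h)]
      refine IsOpen.preimage hf ⟨by rwa [pre U (hd U h)], fun a ha h' => ?_⟩
      exact absurd ha (disjoint_left.1 (hd U h) (pre U (hd U h) ▸ h'))
    refine ⟨g ⁻¹' hat S, ⟨main (hat_clopen S) ho fun N h hN hi => ?_,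
      ho _ Subset.rfl (hat_clopen S).isOpen⟩, s1, fun h => s2 h (Or.inl rfl), fun x hx y e => ?_⟩
    · rw [gf N (hd N h)]
      refine IsClosed.preimage hf ⟨⟨?_, fun _ _ _ => ?_⟩⟩ <;> rw [preimage_compl, pre N (hd N h)]
      exacts [hN.isOpen_compl, interior_eq_empty_iff_dense_compl.1 hi]
    · show (f y).out ∈ hat S
      rw [← e]; exact hx
  rw [← isOpen_compl_iff, isOpen_iff_mem_nhds]
  rintro ⟨a, b⟩ h
  by_cases h1 : g a ∈ A
  · have h2 : g b ∉ A := fun h2 => h (by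
      show f a = f b
      rw [← hg, ← hg]; exact Quotient.sound (Or.inr ⟨h1, h2⟩))
    obtain ⟨C, c1, c2, c3, c4⟩ := sep b a h2 (Ne.symm h)
    filter_upwards [prod_mem_nhds (c1.compl.isOpen.mem_nhds c3) (c1.isOpen.mem_nhds c2)] with p hp e
    exact hp.1 (c4 _ hp.2 _ (Eq.symm e))
  · obtain ⟨C, c1, c2, c3, c4⟩ := sep a b h1 h
    filter_upwards [prod_mem_nhds (c1.isOpen.mem_nhds c2) (c1.compl.isOpen.mem_nhds c3)] with p hp e
    exact hp.2 (c4 _ hp.1 _ e)

end Pool.Agent.Results.MP_a8a70f_gt.KTwo
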